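import Pool.Agent.V11293.MIX.Spec

set_option autoImplicit false

namespace Pool.Agent.Results.MP_582e4a_co.CompleteGraphMaximal

open Matrix
open scoped Matrix

/-- The matrix of the orthogonal projection of Euclidean space onto the `θ`-eigenspace of the
real symmetric matrix `A` (the zero matrix if `θ` is not an eigenvalue). -/
noncomputable def specProj {V : Type} [Fintype V] [DecidableEq V] (A : Matrix V V ℝ) (θ : ℝ) :
    Matrix V V ℝ :=
  fun a b => ((Module.End.eigenspace (Matrix.toEuclideanLin A) θ).starProjection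
    (EuclideanSpace.single b (1 : ℝ))) a

/-- The average mixing matrix of a graph with respect to its adjacency matrix `A`: the sum, over the
distinct eigenvalues `θ` of `A`, of the Schur squares of the spectral projections. -/
noncomputable def avgMixing {V : Type} [Fintype V] [DecidableEq V] (G : SimpleGraph V)
    [DecidableRel G.Adj] : Matrix V V ℝ :=
  ∑ θ ∈ (G.adjMatrix ℝ).charpoly.roots.toFinset,
    (specProj (G.adjMatrix ℝ) θ) ⊙ (specProj (G.adjMatrix ℝ) θ)

open Pool.Agent.V11293.MIX

section
variable {V : Type} [Fintype V] [DecidableEq V]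

theorem sd (A : Matrix V V ℝ) (hA : A.IsHermitian) :
    SD (fun a b => A a b) hA.eigenvalues (fun i a => hA.eigenvectorBasis i a) := by
  refine ⟨?_, ?_, ?_⟩
  · intro i j
    have h1 := orthonormal_iff_ite.mp hA.eigenvectorBasis.orthonormal i j
    rw [← h1, PiLp.inner_apply]
    apply Finset.sum_congr rfl
    intro a _
    simp [mul_comm]
  · intro a b
    have h1 := hA.eigenvectorBasis.sum_inner_mul_inner (EuclideanSpace.single a (1 : ℝ))
      (EuclideanSpace.single b (1 : ℝ))
    have h2 : (inner ℝ (EuclideanSpace.single a (1 : ℝ)) (EuclideanSpace.single b (1 : ℝ)) : ℝ) =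
        if a = b then 1 else 0 := by
      rw [EuclideanSpace.inner_single_left]
      simp [eq_comm]
    rw [h2] at h1
    rw [← h1]
    apply Finset.sum_congr rfl
    intro i _
    rw [EuclideanSpace.inner_single_left, EuclideanSpace.inner_single_right]
    simp
  · intro i a
    have h1 := congrFun (hA.mulVec_eigenvectorBasis i) a
    simpa [Matrix.mulVec, dotProduct] using h1

theorem eigbasis (A : Matrix V V ℝ) (hA : A.IsHermitian) (i : V) :
    (Matrix.toEuclideanLin A) (hA.eigenvectorBasis i) =
      hA.eigenvalues i • hA.eigenvectorBasis i := by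
  ext a
  have h1 := congrFun (hA.mulVec_eigenvectorBasis i) a
  simpa using h1

theorem inner_zero (A : Matrix V V ℝ) (hA : A.IsHermitian) (i : V) (θ : ℝ)
    (hi : hA.eigenvalues i ≠ θ) (w : EuclideanSpace ℝ V)
    (hw : w ∈ Module.End.eigenspace (Matrix.toEuclideanLin A) θ) :
    (inner ℝ (hA.eigenvectorBasis i) w : ℝ) = 0 := by
  have hsym := (isSymmetric_toEuclideanLin_iff.mpr hA) (hA.eigenvectorBasis i) w
  rw [eigbasis, Module.End.mem_eigenspace_iff.mp hw, inner_smul_left, inner_smul_right] at hsym
  have h2 : (hA.eigenvalues i - θ) * (inner ℝ (hA.eigenvectorBasis i) w : ℝ) = 0 := by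
    simp only [RCLike.conj_to_real] at hsym
    linarith
  rcases mul_eq_zero.mp h2 with h | h
  · exact absurd (sub_eq_zero.mp h) hi
  · exact h

theorem specProj_diag (A : Matrix V V ℝ) (hA : A.IsHermitian) (θ : ℝ) (a : V) :
    specProj A θ a a = ∑ i ∈ Finset.univ.filter (fun i => hA.eigenvalues i = θ),
      hA.eigenvectorBasis i a * hA.eigenvectorBasis i a := by
  set v : EuclideanSpace ℝ V := ∑ i ∈ Finset.univ.filter (fun i => hA.eigenvalues i = θ),
      (hA.eigenvectorBasis i a) • hA.eigenvectorBasis i with hv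
  have hmem : v ∈ Module.End.eigenspace (Matrix.toEuclideanLin A) θ := by
    rw [hv]
    apply Submodule.sum_mem
    intro i hi
    apply Submodule.smul_mem
    rw [Module.End.mem_eigenspace_iff, eigbasis, (Finset.mem_filter.mp hi).2]
  have horth : ∀ w ∈ Module.End.eigenspace (Matrix.toEuclideanLin A) θ,
      (inner ℝ (EuclideanSpace.single a (1 : ℝ) - v) w : ℝ) = 0 := by
    intro w hw
    have h1 : (inner ℝ (EuclideanSpace.single a (1 : ℝ)) w : ℝ) =
        ∑ i, hA.eigenvectorBasis i a * (inner ℝ (hA.eigenvectorBasis i) w : ℝ) := by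
      rw [← hA.eigenvectorBasis.sum_inner_mul_inner]
      apply Finset.sum_congr rfl
      intro i _
      rw [EuclideanSpace.inner_single_left]
      simp
    rw [inner_sub_left, h1, hv, sum_inner, Finset.sum_filter, ← Finset.sum_sub_distrib]
    apply Finset.sum_eq_zero
    intro i _
    split_ifs with h
    · rw [inner_smul_left]
      simp
    · rw [inner_zero A hA i θ h w hw]
      simp
  have h3 := Submodule.eq_starProjection_of_mem_of_inner_eq_zero hmem horth
  unfold specProj
  rw [h3, hv]
  simp [Finset.sum_apply]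

theorem roots_eq (A : Matrix V V ℝ) (hA : A.IsHermitian) :
    A.charpoly.roots.toFinset = Finset.univ.image hA.eigenvalues := by
  rw [hA.roots_charpoly_eq_eigenvalues]
  ext x
  simp

theorem trace_eq (G : SimpleGraph V) [DecidableRel G.Adj] (hA : (G.adjMatrix ℝ).IsHermitian) :
    (avgMixing G).trace = ∑ a, ∑ θ ∈ Finset.univ.image hA.eigenvalues,
      (∑ i ∈ Finset.univ.filter (fun i => hA.eigenvalues i = θ),
        hA.eigenvectorBasis i a * hA.eigenvectorBasis i a) ^ 2 := by
  unfold avgMixing Matrix.trace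
  apply Finset.sum_congr rfl
  intro a _
  rw [Matrix.diag_apply, Matrix.sum_apply, roots_eq _ hA]
  apply Finset.sum_congr rfl
  intro θ _
  rw [Matrix.hadamard_apply, specProj_diag _ hA, pow_two]

theorem gd (G : SimpleGraph V) [DecidableRel G.Adj] (hG : G.Connected) :
    GD (fun a b => G.adjMatrix ℝ a b) := by
  refine ⟨?_, ?_, ?_, ?_⟩
  · intro a b
    simp [SimpleGraph.adjMatrix_apply, G.adj_comm]
  · intro a
    simp [SimpleGraph.adjMatrix_apply]
  · intro a b
    by_cases h : G.Adj a b <;> simp [SimpleGraph.adjMatrix_apply, h]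
  · intro S hS hcl b
    obtain ⟨a, ha⟩ := hS
    obtain ⟨w⟩ := hG.preconnected a b
    induction w with
    | nil => exact ha
    | cons hadj _ ih =>
      apply ih
      apply hcl _ ha
      simp [SimpleGraph.adjMatrix_apply, hadj]

theorem complete_abs {A : V → V → ℝ} {μ : V → ℝ} {u : V → V → ℝ} (h : SD A μ u)
    (hcard : 1 ≤ Fintype.card V) (hA : ∀ a b, A a b = if a = b then 0 else 1) :
    ∑ a, ∑ θ ∈ Finset.univ.image μ,
      (∑ i ∈ Finset.univ.filter (fun i => μ i = θ), u i a * u i a) ^ 2 =
      ((Fintype.card V : ℝ) ^ 2 - 2 * (Fintype.card V : ℝ) + 2) / (Fintype.card V : ℝ) := by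
  set n : ℝ := (Fintype.card V : ℝ) with hn
  have hn1 : (1 : ℝ) ≤ n := by rw [hn]; exact_mod_cast hcard
  -- eigen-equation
  have he : ∀ i a, (∑ b, u i b) - u i a = μ i * u i a := by
    intro i a
    rw [← h.eig i a]
    have : ∀ b, A a b * u i b = u i b - (if a = b then u i b else 0) := by
      intro b
      rw [hA]
      split_ifs <;> ring
    simp_rw [this]
    rw [Finset.sum_sub_distrib]
    simp
  -- coefficients of the all-ones vector
  have hp := parseval h (fun _ => (1 : ℝ))
  have hp' : ∑ i, (∑ b, u i b) ^ 2 = n := by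
    have h1 : ∑ _a : V, (1 : ℝ) ^ 2 = n := by
      rw [hn]; simp
    rw [← h1, ← hp]
    apply Finset.sum_congr rfl
    intro i _
    unfold coef
    simp
  obtain ⟨i0, hi0⟩ : ∃ i0, ∑ b, u i0 b ≠ 0 := by
    by_contra hcon
    push Not at hcon
    have : ∑ i, (∑ b, u i b) ^ 2 = 0 := by
      apply Finset.sum_eq_zero
      intro i _
      rw [hcon i]; ring
    linarith
  -- any index with nonzero coordinate sum
  have hkey : ∀ i, ∑ b, u i b ≠ 0 → μ i = n - 1 ∧ ∀ a, u i a = (∑ b, u i b) / n := by
    intro i hi
    have h1 : ∀ a, (μ i + 1) * u i a = ∑ b, u i b := by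
      intro a; have := he i a; linarith
    have h2 : (μ i + 1) * ∑ a, u i a = n * ∑ b, u i b := by
      rw [Finset.mul_sum]
      simp_rw [h1]
      rw [Finset.sum_const, nsmul_eq_mul, Finset.card_univ]
    have h3 : μ i + 1 = n := mul_right_cancel₀ hi h2
    refine ⟨by linarith, fun a => ?_⟩
    rw [eq_div_iff (by linarith), ← h1 a, h3]; ring
  have hkey2 : ∀ i, ∑ b, u i b = 0 → μ i = -1 := by
    intro i hi
    have h1 : ∀ a, (μ i + 1) * u i a = 0 := by
      intro a; have := he i a; rw [hi] at this; linarith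
    by_contra hne
    have h2 : ∀ a, u i a = 0 := by
      intro a
      rcases mul_eq_zero.mp (h1 a) with h3 | h3
      · exact absurd (by linarith) hne
      · exact h3
    have h4 := h.orthR i i
    rw [if_pos rfl] at h4
    simp [h2] at h4
  have huniq : ∀ i, i ≠ i0 → ∑ b, u i b = 0 := by
    intro i hi
    by_contra hne
    have h1 := h.orthR i i0
    rw [if_neg hi] at h1
    have h2 : ∀ a, u i a * u i0 a = ((∑ b, u i b) / n) * ((∑ b, u i0 b) / n) := by
      intro a
      rw [(hkey i hne).2 a, (hkey i0 hi0).2 a]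
    simp_rw [h2] at h1
    rw [Finset.sum_const, nsmul_eq_mul, Finset.card_univ, ← hn] at h1
    have h3 : n * ((∑ b, u i b) / n * ((∑ b, u i0 b) / n)) ≠ 0 := by
      have : n ≠ 0 := by linarith
      positivity
    exact h3 h1
  have hq0 : ∀ a, u i0 a * u i0 a = 1 / n := by
    intro a
    have h1 := h.orthR i0 i0
    rw [if_pos rfl] at h1
    have h2 : ∀ a, u i0 a * u i0 a = ((∑ b, u i0 b) / n) * ((∑ b, u i0 b) / n) := by
      intro a
      rw [(hkey i0 hi0).2 a]
    simp_rw [h2] at h1
    rw [Finset.sum_const, nsmul_eq_mul, Finset.card_univ, ← hn] at h1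
    rw [h2 a, eq_div_iff (by linarith)]
    linarith
  have hrow : ∀ a, ∑ θ ∈ Finset.univ.image μ,
      (∑ i ∈ Finset.univ.filter (fun i => μ i = θ), u i a * u i a) ^ 2 =
      (1 / n) ^ 2 + (1 - 1 / n) ^ 2 := by
    intro a
    rw [fib_sq]
    have hsum : ∑ i ∈ Finset.univ.erase i0, u i a * u i a = 1 - 1 / n := by
      have h1 := h.orthC a a
      rw [if_pos rfl, ← Finset.add_sum_erase _ _ (Finset.mem_univ i0), hq0 a] at h1
      linarith
    rw [← Finset.add_sum_erase _ _ (Finset.mem_univ i0)]
    congr 1
    · rw [← Finset.add_sum_erase _ _ (Finset.mem_univ i0), if_pos rfl, hq0 a]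
      have : ∑ x ∈ Finset.univ.erase i0,
          (if μ i0 = μ x then 1 / n * (u x a * u x a) else 0) = 0 := by
        apply Finset.sum_eq_zero
        intro x hx
        rw [if_neg]
        rw [(hkey i0 hi0).1, hkey2 x (huniq x (Finset.ne_of_mem_erase hx))]
        intro hc
        linarith
      rw [this]
      ring
    · rw [pow_two, ← hsum, Finset.sum_mul_sum]
      apply Finset.sum_congr rfl
      intro i hi
      rw [← Finset.add_sum_erase _ _ (Finset.mem_univ i0), if_neg, zero_add]
      · apply Finset.sum_congr rfl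
        intro j hj
        rw [if_pos]
        rw [hkey2 i (huniq i (Finset.ne_of_mem_erase hi)),
          hkey2 j (huniq j (Finset.ne_of_mem_erase hj))]
      · rw [(hkey i0 hi0).1, hkey2 i (huniq i (Finset.ne_of_mem_erase hi))]
        intro hc
        linarith
  simp_rw [hrow]
  rw [Finset.sum_const, nsmul_eq_mul, Finset.card_univ, ← hn]
  have : n ≠ 0 := by linarith
  field_simp
  ring

end

/-- For every finite connected graph `G` on `n` vertices, the trace of the average mixing matrix of
`G` with respect to the adjacency matrix is at most `(n² - 2n + 2)/n`, and the complete graph attains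
this value. -/
theorem result : ∀ (V : Type) [Fintype V] [DecidableEq V] (G : SimpleGraph V) [DecidableRel G.Adj],
    G.Connected →
      (avgMixing G).trace ≤ (avgMixing (⊤ : SimpleGraph V)).trace ∧
      (avgMixing (⊤ : SimpleGraph V)).trace =
        ((Fintype.card V : ℝ) ^ 2 - 2 * (Fintype.card V : ℝ) + 2) / (Fintype.card V : ℝ) := by
  intro V _ _ G _ hG
  haveI := hG.nonempty
  have hcard : 1 ≤ Fintype.card V := Fintype.card_pos
  have hA : (G.adjMatrix ℝ).IsHermitian := by
    rw [Matrix.IsHermitian, Matrix.conjTranspose_eq_transpose_of_trivial]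
    exact G.isSymm_adjMatrix
  have hT : ((⊤ : SimpleGraph V).adjMatrix ℝ).IsHermitian := by
    rw [Matrix.IsHermitian, Matrix.conjTranspose_eq_transpose_of_trivial]
    exact (⊤ : SimpleGraph V).isSymm_adjMatrix
  have h2 : (avgMixing (⊤ : SimpleGraph V)).trace =
        ((Fintype.card V : ℝ) ^ 2 - 2 * (Fintype.card V : ℝ) + 2) / (Fintype.card V : ℝ) := by
    rw [trace_eq _ hT]
    apply complete_abs (sd _ hT) hcard
    intro a b
    by_cases hab : a = b <;> simp [SimpleGraph.adjMatrix_apply, hab]
  refine ⟨?_, h2⟩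
  rw [h2, trace_eq _ hA]
  exact trace_bound (sd _ hA) (gd G hG) hcard

end Pool.Agent.Results.MP_582e4a_co.CompleteGraphMaximal
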